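import Pool.Agent.Helper68_Leo4.Basic

/-!
Squad leo4, module QUA: integers of `k(√-m)`, conjugation, trace, norm.
-/

set_option autoImplicit false

open NumberField IsDedekindDomain Module Polynomial

namespace Pool.Agent.Leo4.H32

/-- Conjugation of a quadratic extension. -/
theorem quad_conj {K L : Type} [Field K] [Field L] [CharZero K] [Algebra K L]
    (hd : finrank K L = 2) {r : L} {a : K} (hr : r ^ 2 = algebraMap K L a)
    (hn : ∀ x : K, algebraMap K L x ≠ r) :
    ∃ c : L ≃ₐ[K] L, c r = -r ∧ (∀ x, c (c x) = x) ∧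
      (∀ x : L, c x = x → ∃ y : K, algebraMap K L y = x) ∧
      ∀ x : L, algebraMap K L (Algebra.norm K x) = x * c x := by
  have : Algebra.IsQuadraticExtension K L := ⟨hd⟩
  have : FiniteDimensional K L := Module.finite_of_finrank_eq_succ hd
  have : IsGalois K L := inferInstance
  have h1 : ∃ c : L ≃ₐ[K] L, c r ≠ r := by
    by_contra hcon
    push Not at hcon
    obtain ⟨q, hq⟩ := (IsGalois.mem_range_algebraMap_iff_fixed r).mpr hcon
    exact hn q hq
  obtain ⟨c, hc⟩ := h1
  have hcs : c r = -r := by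
    have h2 : (c r) ^ 2 = r ^ 2 := by
      rw [← map_pow, hr, AlgEquiv.commutes]
    rcases sq_eq_sq_iff_eq_or_eq_neg.mp h2 with h | h
    · exact absurd h hc
    · exact h
  have hcard : Fintype.card (L ≃ₐ[K] L) = 2 := by
    rw [← Nat.card_eq_fintype_card, IsGalois.card_aut_eq_finrank, hd]
  have hc1 : c ≠ 1 := by
    rintro rfl
    exact hc rfl
  classical
  have huniv : (Finset.univ : Finset (L ≃ₐ[K] L)) = {1, c} := by
    symm
    apply Finset.eq_univ_of_card
    rw [Finset.card_pair (Ne.symm hc1), hcard]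
  have hall : ∀ g : L ≃ₐ[K] L, g = 1 ∨ g = c := by
    intro g
    have := Finset.mem_univ g
    rw [huniv] at this
    simpa using this
  refine ⟨c, hcs, ?_, ?_, ?_⟩
  · intro x
    have h2 : c * c = 1 := by
      rcases hall (c * c) with h | h
      · exact h
      · exact absurd (mul_eq_left.mp h) hc1
    have h3 := AlgEquiv.congr_fun h2 x
    simpa using h3
  · intro x hx
    apply (IsGalois.mem_range_algebraMap_iff_fixed x).mpr
    intro g
    rcases hall g with rfl | rfl
    · rfl
    · exact hx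
  · intro x
    rw [Algebra.norm_eq_prod_automorphisms, huniv, Finset.prod_pair (Ne.symm hc1)]
    rfl

/-- `ev f x` is integral. -/
theorem ev_int {A : Type} [CommRing A] {f : A} (hf : f ^ 2 = f + 1) (x : O) :
    IsIntegral ℤ (ev f x) := by
  have h1 : IsIntegral ℤ f := by
    refine ⟨X ^ 2 - X - 1, ?_, ?_⟩
    · have : (X ^ 2 - X - 1 : ℤ[X]) = X ^ 2 + (-X - 1) := by ring
      rw [this]
      apply monic_X_pow_add
      refine (degree_sub_le _ _).trans_lt ?_
      rw [degree_neg, degree_X, degree_one]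
      exact max_lt (by norm_num) (by norm_num)
    · simp only [eval₂_sub, eval₂_X_pow, eval₂_X, eval₂_one]
      rw [hf]
      ring
  have h2 : ∀ n : ℤ, IsIntegral ℤ (n : A) := fun n => by
    have := isIntegral_algebraMap (R := ℤ) (A := A) (x := n)
    simpa using this
  exact (h2 _).add ((h2 _).mul h1)

section fk

variable {k : Type} [Field k] [NumberField k] {f : k}

/-- every element of `k` is a fraction of elements of `O`. -/
theorem exists_frac (hO : ∀ x : k, IsIntegral ℤ x → ∃ y : O, x = ev f y) (x : k) :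
    ∃ a b : O, ev f b ≠ 0 ∧ x * ev f b = ev f a := by
  obtain ⟨p, q, hq, rfl⟩ := IsFractionRing.div_surjective (A := 𝓞 k) x
  obtain ⟨a, ha⟩ := hO _ (RingOfIntegers.isIntegral_coe p)
  obtain ⟨b, hb⟩ := hO _ (RingOfIntegers.isIntegral_coe q)
  have hq0 : (algebraMap (𝓞 k) k q) ≠ 0 := by
    simpa using nonZeroDivisors.ne_zero hq
  refine ⟨a, b, ?_, ?_⟩
  · rw [← hb]
    exact hq0
  · rw [← hb, ← ha]
    exact div_mul_cancel₀ _ hq0

theorem exists_cop [IsDomain O] [IsPrincipalIdealRing O]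
    (hf : f ^ 2 = f + 1) (hO : ∀ x : k, IsIntegral ℤ x → ∃ y : O, x = ev f y) (x : k) :
    ∃ a b : O, IsCoprime a b ∧ ev f b ≠ 0 ∧ x * ev f b = ev f a := by
  obtain ⟨a, b, hb, hab⟩ := exists_frac hO x
  have hb0 : b ≠ 0 := by
    rintro rfl
    exact hb (ev_zero f)
  obtain ⟨d, hd⟩ := (IsPrincipalIdealRing.principal (Ideal.span {a, b} : Ideal O)).principal
  have ha1 : a ∈ Ideal.span {d} := by
    rw [← Ideal.submodule_span_eq, ← hd]
    exact Ideal.subset_span (by simp)
  have hb1 : b ∈ Ideal.span {d} := by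
    rw [← Ideal.submodule_span_eq, ← hd]
    exact Ideal.subset_span (by simp)
  have hd1 : d ∈ Ideal.span {a, b} := by
    rw [hd]
    exact Submodule.mem_span_singleton_self d
  obtain ⟨a', ha'⟩ := Ideal.mem_span_singleton'.1 ha1
  obtain ⟨b', hb'⟩ := Ideal.mem_span_singleton'.1 hb1
  obtain ⟨u, v, huv⟩ := Ideal.mem_span_pair.1 hd1
  have hd0 : d ≠ 0 := by
    rintro rfl
    exact hb0 (by rw [← hb', mul_zero])
  have hdk : ev f d ≠ 0 := ev_ne_zero hf hd0
  refine ⟨a', b', ⟨u, v, ?_⟩, ?_, ?_⟩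
  · apply mul_right_cancel₀ hd0
    rw [one_mul]
    calc (u * a' + v * b') * d = u * (a' * d) + v * (b' * d) := by ring
      _ = d := by rw [ha', hb', huv]
  · intro h0
    apply hb
    rw [← hb', ev_mul hf, h0, zero_mul]
  · apply mul_right_cancel₀ hdk
    rw [mul_assoc, ← ev_mul hf, hb', hab, ← ha', ev_mul hf]

theorem norm_ev (hk : finrank ℚ k = 2) (hf : f ^ 2 = f + 1) (y : O) :
    Algebra.norm ℚ (ev f y) = (nm y : ℚ) := by
  have h5 : (2 * f - 1) ^ 2 = algebraMap ℚ k 5 := by
    rw [map_ofNat]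
    linear_combination 4 * hf
  have hn : ∀ x : ℚ, algebraMap ℚ k x ≠ 2 * f - 1 := by
    intro x hx
    have h1 : algebraMap ℚ k (x ^ 2) = algebraMap ℚ k 5 := by rw [map_pow, hx, h5]
    have h2 : x ^ 2 = 5 := (algebraMap ℚ k).injective h1
    have h3 : (x.num : ℚ) ^ 2 = 5 * (x.den : ℚ) ^ 2 := by
      have h4 : x * x.den = x.num := Rat.mul_den_eq_num x
      rw [← h4, mul_pow, h2]
    have h4 : x.num ^ 2 = 5 * (x.den : ℤ) ^ 2 := by exact_mod_cast h3
    have h6 := sq_ne_five_mul h4
    exact x.den_nz (by exact_mod_cast h6)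
  obtain ⟨c, hc1, _, _, hc4⟩ := quad_conj hk h5 hn
  have hcf : c f = 1 - f := by
    have : c (2 * f - 1) = 2 * c f - 1 := by
      rw [map_sub, map_mul, map_one, map_ofNat]
    rw [hc1] at this
    linear_combination (-1 / 2 : k) * this
  apply (algebraMap ℚ k).injective
  rw [hc4]
  have h6 : c (ev f y) = ev (1 - f) y := by
    have := map_ev (c : k →+* k) f y
    rw [← hcf]
    exact this
  rw [h6]
  simp only [ev, nm]
  rw [eq_ratCast]
  push_cast
  linear_combination (-(y.im : k) ^ 2) * hf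

end fk

section main

variable {k K : Type} [Field k] [NumberField k] [Field K] [NumberField K] [Algebra k K] {f : k}
  {s : K} {m : O}

theorem s_not_range (hf : f ^ 2 = f + 1) (hO : ∀ x : k, IsIntegral ℤ x → ∃ y : O, x = ev f y)
    (hs : s ^ 2 = -algebraMap k K (ev f m)) (hm : 0 < e1 m) : ∀ x : k, algebraMap k K x ≠ s := by
  intro x hx
  have h1 : x ^ 2 = -ev f m := by
    apply (algebraMap k K).injective
    rw [map_pow, hx, hs, map_neg]
  have h2 : IsIntegral ℤ x := by
    have h3 : IsIntegral ℤ (x ^ 2) := by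
      rw [h1]
      exact (ev_int hf m).neg
    exact IsIntegral.of_pow two_pos h3
  obtain ⟨y, hy⟩ := hO x h2
  have h3 : y ^ 2 = -m := by
    apply ev_inj hf
    rw [ev_pow hf, ← hy, h1, ev_neg]
  have h4 := e1_pow y 2
  rw [h3, e1_neg] at h4
  nlinarith [sq_nonneg (e1 y)]

theorem key [IsDomain O] [IsPrincipalIdealRing O] (hf : f ^ 2 = f + 1)
    (hO : ∀ x : k, IsIntegral ℤ x → ∃ y : O, x = ev f y)
    (hs : s ^ 2 = -algebraMap k K (ev f m)) (hsf : Squarefree m) (γ : k)
    (hint : IsIntegral ℤ (algebraMap k K γ * s)) : ∃ y : O, γ = ev f y := by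
  have h1 : algebraMap k K (γ ^ 2 * ev f m) = -(algebraMap k K γ * s) ^ 2 := by
    rw [mul_pow, hs, map_mul, map_pow]
    ring
  have h2 : IsIntegral ℤ (γ ^ 2 * ev f m) := by
    rw [← isIntegral_algebraMap_iff (algebraMap k K).injective, h1]
    exact (hint.pow 2).neg
  obtain ⟨t, ht⟩ := hO _ h2
  obtain ⟨a, b, hab, hb, hγ⟩ := exists_cop hf hO γ
  have h3 : a ^ 2 * m = t * b ^ 2 := by
    apply ev_inj hf
    rw [ev_mul hf, ev_mul hf, ev_pow hf, ev_pow hf, ← hγ, ← ht]
    ring
  have h4 : b ^ 2 ∣ m := by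
    have h5 : IsCoprime (b ^ 2) (a ^ 2) := hab.symm.pow
    exact h5.dvd_of_dvd_mul_left ⟨t, by rw [h3]; ring⟩
  have h5 : IsUnit b := hsf b (by rw [← sq]; exact h4)
  obtain ⟨b', hb'⟩ := h5.exists_right_inv
  refine ⟨a * b', ?_⟩
  apply mul_right_cancel₀ hb
  rw [hγ, ← ev_mul hf, mul_assoc, mul_comm b' b, hb', mul_one]

theorem nonneg_aux {y d a m : O} {e : O → ℝ} (hmul : ∀ x y, e (x * y) = e x * e y)
    (hadd : ∀ x y, e (x + y) = e x + e y) (hm : 0 ≤ e m) {b : O} (hd : e d ≠ 0)
    (h : y * (d * d) = a * a + b * b * m) : 0 ≤ e y := by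
  have h1 := congrArg e h
  rw [hmul, hmul, hadd, hmul, hmul, hmul] at h1
  have h2 : 0 < e d * e d := mul_self_pos.2 hd
  have h3 : 0 ≤ e y * (e d * e d) := by
    rw [h1]
    have := mul_nonneg (mul_self_nonneg (e b)) hm
    have := mul_self_nonneg (e a)
    linarith
  exact (mul_nonneg_iff_of_pos_right h2).1 h3

end main

/-- module QUA -/
theorem qua (h : OkrStmt) : QuaStmt := by
  intro k K _ _ _ _ _ f s m hk hf hK hs hG
  obtain ⟨hdom, hpid, -, -, -, -, -, -, -, -, hint⟩ := h
  have hO := hint k f hk hf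
  have hn := s_not_range hf hO hs hG.pos1
  have hs0 : s ≠ 0 := by
    intro h0
    exact hn 0 (by rw [map_zero, h0])
  obtain ⟨c, hcs, hcc, hfix, hnorm⟩ := quad_conj (K := k) (L := K) hK (r := s) (a := -ev f m)
    (by rw [hs, map_neg]) hn
  have hcint : ∀ z : K, IsIntegral ℤ z → IsIntegral ℤ (c z) :=
    fun z hz => map_isIntegral_int c.toRingEquiv.toRingHom hz
  have hdown : ∀ α : k, IsIntegral ℤ (algebraMap k K α) → ∃ y : O, α = ev f y := by
    intro α hα
    exact hO α ((isIntegral_algebraMap_iff (algebraMap k K).injective).1 hα)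
  have anti : ∀ z : K, IsIntegral ℤ z → c z = -z → ∃ y : O, z = algebraMap k K (ev f y) * s := by
    intro z hz hcz
    obtain ⟨γ, hγ⟩ := hfix (z / s) (by rw [map_div₀, hcz, hcs, neg_div_neg_eq])
    have h1 : z = algebraMap k K γ * s := by
      rw [hγ]
      exact (div_mul_cancel₀ _ hs0).symm
    obtain ⟨y, hy⟩ := key hf hO hs hG.sqf γ (by rw [← h1]; exact hz)
    exact ⟨y, by rw [h1, hy]⟩
  refine ⟨c, hcs, ?_, ?_, ?_, ?_, ?_⟩
  · intro x hx
    obtain ⟨α, hα⟩ := hfix x hx
    obtain ⟨y, hy⟩ := hdown α (by rw [hα]; exact RingOfIntegers.isIntegral_coe x)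
    exact ⟨y, by rw [← hα, hy]⟩
  · intro x
    refine anti _ ((RingOfIntegers.isIntegral_coe x).sub
      (hcint _ (RingOfIntegers.isIntegral_coe x))) ?_
    rw [map_sub, hcc]
    ring
  · intro x
    have hxi := RingOfIntegers.isIntegral_coe x
    obtain ⟨β, hβ⟩ := hfix ((x : K) * c x) (by rw [map_mul, hcc, mul_comm])
    obtain ⟨y, hy⟩ := hdown β (by rw [hβ]; exact hxi.mul (hcint _ hxi))
    obtain ⟨α, hα⟩ := hfix (((x : K) + c x) / 2) (by
      rw [map_div₀, map_add, hcc, map_ofNat, add_comm])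
    obtain ⟨γ, hγ⟩ := hfix (((x : K) - c x) / (2 * s)) (by
      rw [map_div₀, map_sub, hcc, map_mul, map_ofNat, hcs]
      field_simp
      ring)
    have hcoord : (x : K) = algebraMap k K α + algebraMap k K γ * s := by
      rw [hα, hγ]
      field_simp
      ring
    have hcx : c (x : K) = algebraMap k K α - algebraMap k K γ * s := by
      rw [hcoord, map_add, map_mul, hcs, AlgEquiv.commutes, AlgEquiv.commutes]
      ring
    have hyk : ev f y = α ^ 2 + γ ^ 2 * ev f m := by
      apply (algebraMap k K).injective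
      rw [← hy, hβ, hcx]
      conv_lhs => rw [hcoord]
      rw [map_add, map_mul, map_pow, map_pow]
      linear_combination (-(algebraMap k K γ) ^ 2) * hs
    obtain ⟨a, d, hd, had⟩ := exists_frac hO α
    obtain ⟨b, d', hd', hbd⟩ := exists_frac hO γ
    have hyO : y * ((d * d') * (d * d')) = (a * d') * (a * d') + (b * d) * (b * d) * m := by
      apply ev_inj hf
      simp only [ev_mul hf, ev_add]
      rw [hyk, ← had, ← hbd]
      ring
    have hd0 : d ≠ 0 := by
      rintro rfl
      exact hd (ev_zero f)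
    have hd0' : d' ≠ 0 := by
      rintro rfl
      exact hd' (ev_zero f)
    have hdd : d * d' ≠ 0 := mul_ne_zero hd0 hd0'
    have hy1 : 0 ≤ e1 y := nonneg_aux e1_mul e1_add hG.pos1.le (e1_ne_zero hdd) hyO
    have hy2 : 0 ≤ e2 y := nonneg_aux e2_mul e2_add hG.pos2.le (e2_ne_zero hdd) hyO
    refine ⟨y, by rw [← hβ, hy], hy1, hy2, ?_⟩
    have h1 : Algebra.norm ℚ (x : K) = (Algebra.norm ℤ x : ℚ) := (Algebra.coe_norm_int x).symm
    have h2 : Algebra.norm ℚ (Algebra.norm k (x : K)) = Algebra.norm ℚ (x : K) :=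
      Algebra.norm_norm
    have h3 : Algebra.norm k (x : K) = ev f y := by
      apply (algebraMap k K).injective
      rw [hnorm, ← hβ, hy]
    rw [h3, norm_ev hk hf, h1] at h2
    have h4 : nm y = Algebra.norm ℤ x := by exact_mod_cast h2
    have h5 : 0 ≤ nm y := by
      have : (0 : ℝ) ≤ nm y := by
        rw [nm_eq]
        exact mul_nonneg hy1 hy2
      exact_mod_cast this
    rw [Ideal.absNorm_span_singleton, ← h4, Int.natAbs_of_nonneg h5]
  · obtain ⟨ν, c₀, hν, -⟩ := hG.cls.two
    have hνk : ev f m + ev f ν ^ 2 = 4 * ev f c₀ := by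
      have := congrArg (ev f) hν
      rw [ev_add, ev_pow hf, ev_mul hf, ev_ofNat] at this
      exact this
    have hint' : IsIntegral ℤ ((algebraMap k K (ev f ν) + s) / 2) := by
      have hi : ∀ z : O, IsIntegral ℤ (algebraMap k K (ev f z)) := fun z =>
        (isIntegral_algebraMap_iff (algebraMap k K).injective).2 (ev_int hf z)
      set nu : 𝓞 K := ⟨algebraMap k K (ev f ν), hi ν⟩ with hnu
      set c1 : 𝓞 K := ⟨algebraMap k K (ev f c₀), hi c₀⟩ with hc1
      have h6 : IsIntegral (𝓞 K) ((algebraMap k K (ev f ν) + s) / 2) := by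
        refine ⟨X ^ 2 - C nu * X + C c1, ?_, ?_⟩
        · have : (X ^ 2 - C nu * X + C c1 : (𝓞 K)[X]) = X ^ 2 + (-(C nu * X) + C c1) := by ring
          rw [this]
          apply monic_X_pow_add
          refine (degree_add_le _ _).trans_lt ?_
          rw [degree_neg]
          exact max_lt ((degree_C_mul_X_le _).trans_lt (by norm_num))
            (degree_C_le.trans_lt (by norm_num))
        · simp only [eval₂_add, eval₂_sub, eval₂_mul, eval₂_X_pow, eval₂_X, eval₂_C]
          have h7 : algebraMap (𝓞 K) K nu = algebraMap k K (ev f ν) := rfl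
          have h8 : algebraMap (𝓞 K) K c1 = algebraMap k K (ev f c₀) := rfl
          rw [h7, h8]
          have h9 := congrArg (algebraMap k K) hνk
          rw [map_add, map_pow, map_mul, map_ofNat] at h9
          linear_combination (1 / 4 : K) * hs - (1 / 4 : K) * h9
      exact isIntegral_trans _ h6
    refine ⟨⟨(algebraMap k K (ev f ν) + s) / 2, hint'⟩, ?_⟩
    show (algebraMap k K (ev f ν) + s) / 2 - c ((algebraMap k K (ev f ν) + s) / 2) = s
    rw [map_div₀, map_add, AlgEquiv.commutes, hcs, map_ofNat]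
    ring
  · intro x hx
    exact anti _ (RingOfIntegers.isIntegral_coe x) hx

end Pool.Agent.Leo4.H32
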