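import Pool.Agent.Helper68_Leo4.Basic

/-!
Squad leo4, module SMA: a sum over `a`.
-/

set_option autoImplicit false

open Module

namespace Pool.Agent.Leo4.H32

theorem abs_nm (a : O) : |(nm a : ℝ)| = |e1 a| * |e2 a| := by
  rw [nm_eq, abs_mul]

theorem pow_aux {A η t : ℝ} (hA : 1 ≤ A) (hη : 0 < η) (ht : 0 < t) (h : A ≤ η * t ^ 2) :
    A ^ (-(2 / 3) : ℝ) ≤ η ^ (1 / 4 : ℝ) * t ^ (1 / 2 : ℝ) * A ^ (-(11 / 12) : ℝ) := by
  have hA0 : 0 < A := by linarith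
  have h1 : A ^ (-(2 / 3) : ℝ) = A ^ (1 / 4 : ℝ) * A ^ (-(11 / 12) : ℝ) := by
    rw [← Real.rpow_add hA0]
    norm_num
  have h2 : A ^ (1 / 4 : ℝ) ≤ η ^ (1 / 4 : ℝ) * t ^ (1 / 2 : ℝ) := by
    have h3 : A ^ (1 / 4 : ℝ) ≤ (η * t ^ 2) ^ (1 / 4 : ℝ) :=
      Real.rpow_le_rpow hA0.le h (by norm_num)
    rw [Real.mul_rpow hη.le (by positivity), ← Real.rpow_natCast, ← Real.rpow_mul ht.le] at h3
    norm_num at h3 ⊢
    exact h3
  rw [h1]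
  exact mul_le_mul_of_nonneg_right h2 (by positivity)

theorem fib_aux (h : BoxStmt) {L₁ L₂ : ℝ} (h1 : 0 < L₁) (h2 : 0 < L₂) (S : Finset O)
    (hS : ∀ a ∈ S, a ≠ 0 ∧ L₁ / 2 < |e1 a| ∧ |e1 a| ≤ L₁ ∧ L₂ / 2 < |e2 a| ∧ |e2 a| ≤ L₂) :
    ∑ a ∈ S, |(nm a : ℝ)| ^ (-(11 / 12) : ℝ) ≤ 20 * (L₁ * L₂) ^ (1 / 12 : ℝ) := by
  have hP : 0 < L₁ * L₂ := mul_pos h1 h2
  rcases S.eq_empty_or_nonempty with rfl | ⟨a₀, ha₀⟩
  · rw [Finset.sum_empty]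
    positivity
  have hP1 : 1 ≤ L₁ * L₂ := by
    obtain ⟨g0, -, g1, -, g2⟩ := hS a₀ ha₀
    exact (one_le_abs_mul g0).trans (mul_le_mul g1 g2 (abs_nonneg _) h1.le)
  obtain ⟨hfin, hcard⟩ := h (-L₁) (-L₂) (2 * L₁) (2 * L₂) (by positivity) (by positivity)
  have hc1 : (S.card : ℝ) ≤ 5 * (L₁ * L₂) := by
    have hsub : (S : Set O) ⊆ {x : O | -L₁ ≤ e1 x ∧ e1 x ≤ -L₁ + 2 * L₁ ∧ -L₂ ≤ e2 x ∧
        e2 x ≤ -L₂ + 2 * L₂} := by
      intro a ha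
      obtain ⟨-, -, g1, -, g2⟩ := hS a ha
      rw [abs_le] at g1 g2
      refine ⟨g1.1, ?_, g2.1, ?_⟩
      · linarith [g1.2]
      · linarith [g2.2]
    have h3 := Set.ncard_le_ncard hsub hfin
    rw [Set.ncard_coe_finset] at h3
    have h4 : (S.card : ℝ) ≤ 2 * L₁ * (2 * L₂) + 1 := le_trans (by exact_mod_cast h3) hcard
    linarith
  have hle : ∀ a ∈ S, |(nm a : ℝ)| ^ (-(11 / 12) : ℝ) ≤ (L₁ * L₂ / 4) ^ (-(11 / 12) : ℝ) := by
    intro a ha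
    obtain ⟨-, g1, -, g2, -⟩ := hS a ha
    refine Real.rpow_le_rpow_of_nonpos (by positivity) ?_ (by norm_num)
    rw [abs_nm]
    have := mul_le_mul g1.le g2.le (by positivity) (abs_nonneg _)
    linarith
  have h5 := Finset.sum_le_card_nsmul S _ _ hle
  rw [nsmul_eq_mul] at h5
  have h6 : 0 < L₁ * L₂ / 4 := by positivity
  have h7 : (L₁ * L₂ / 4) * (L₁ * L₂ / 4) ^ (-(11 / 12) : ℝ) = (L₁ * L₂ / 4) ^ (1 / 12 : ℝ) := by
    nth_rw 1 [← Real.rpow_one (L₁ * L₂ / 4)]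
    rw [← Real.rpow_add h6]
    norm_num
  have h8 : (L₁ * L₂ / 4) ^ (1 / 12 : ℝ) ≤ (L₁ * L₂) ^ (1 / 12 : ℝ) :=
    Real.rpow_le_rpow h6.le (by linarith) (by norm_num)
  calc ∑ a ∈ S, |(nm a : ℝ)| ^ (-(11 / 12) : ℝ) ≤
      (S.card : ℝ) * (L₁ * L₂ / 4) ^ (-(11 / 12) : ℝ) := h5
    _ ≤ 5 * (L₁ * L₂) * (L₁ * L₂ / 4) ^ (-(11 / 12) : ℝ) :=
        mul_le_mul_of_nonneg_right hc1 (by positivity)
    _ = 20 * ((L₁ * L₂ / 4) * (L₁ * L₂ / 4) ^ (-(11 / 12) : ℝ)) := by ring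
    _ = 20 * (L₁ * L₂ / 4) ^ (1 / 12 : ℝ) := by rw [h7]
    _ ≤ 20 * (L₁ * L₂) ^ (1 / 12 : ℝ) := by linarith

/-- module SMA -/
theorem sma (h : BoxStmt) : SmaStmt := by
  set r : ℝ := (1 / 2 : ℝ) ^ (1 / 12 : ℝ) with hr
  have hr0 : 0 ≤ r := by positivity
  have hr1 : r < 1 := Real.rpow_lt_one (by norm_num) (by norm_num) (by norm_num)
  have hsum : Summable fun p : ℕ × ℕ => r ^ p.1 * r ^ p.2 :=
    (summable_geometric_of_lt_one hr0 hr1).mul_of_nonneg (summable_geometric_of_lt_one hr0 hr1)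
      (fun n => pow_nonneg hr0 n) (fun n => pow_nonneg hr0 n)
  have hts : 0 ≤ ∑' p : ℕ × ℕ, r ^ p.1 * r ^ p.2 :=
    tsum_nonneg fun p => mul_nonneg (pow_nonneg hr0 _) (pow_nonneg hr0 _)
  refine ⟨20 * 16 ^ (1 / 12 : ℝ) * (∑' p : ℕ × ℕ, r ^ p.1 * r ^ p.2 + 1), by positivity, ?_⟩
  intro t η T ht hη hη1 hT
  have ht0 : 0 < t := by linarith
  have hidx : ∀ x : ℝ, x ≠ 0 → |x| ≤ 4 * t →
      ∃ i : ℕ, 4 * t / 2 ^ (i + 1) < |x| ∧ |x| ≤ 4 * t / 2 ^ i := by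
    intro x hx hx4
    have hx0 : 0 < |x| := abs_pos.2 hx
    obtain ⟨i, h1, h2⟩ := exists_nat_pow_near (x := 4 * t / |x|) (y := 2)
      (by rw [le_div_iff₀ hx0]; linarith) (by norm_num)
    rw [div_lt_iff₀ hx0] at h2
    rw [le_div_iff₀ hx0] at h1
    refine ⟨i, ?_, ?_⟩
    · rw [div_lt_iff₀ (by positivity)]
      linarith
    · rw [le_div_iff₀ (by positivity)]
      linarith
  choose! J hJ using hidx
  have hfib : ∀ p : ℕ × ℕ, ∑ a ∈ T.filter (fun a => (J (e1 a), J (e2 a)) = p),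
      |(nm a : ℝ)| ^ (-(11 / 12) : ℝ) ≤
        20 * 16 ^ (1 / 12 : ℝ) * t ^ (1 / 6 : ℝ) * (r ^ p.1 * r ^ p.2) := by
    rintro ⟨i, j⟩
    have h1 := fib_aux h (L₁ := 4 * t / 2 ^ i) (L₂ := 4 * t / 2 ^ j) (by positivity)
      (by positivity) (T.filter (fun a => (J (e1 a), J (e2 a)) = (i, j))) (by
        intro a ha
        obtain ⟨haT, hap⟩ := Finset.mem_filter.1 ha
        obtain ⟨g0, g1, g2, -⟩ := hT a haT
        have hi : J (e1 a) = i := congrArg Prod.fst hap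
        have hj : J (e2 a) = j := congrArg Prod.snd hap
        have k1 := hJ _ (e1_ne_zero g0) g1
        have k2 := hJ _ (e2_ne_zero g0) g2
        rw [hi] at k1
        rw [hj] at k2
        refine ⟨g0, ?_, k1.2, ?_, k2.2⟩
        · rw [div_div, ← pow_succ]
          exact k1.1
        · rw [div_div, ← pow_succ]
          exact k2.1)
    refine h1.trans (le_of_eq ?_)
    have h2 : (4 * t / 2 ^ i * (4 * t / 2 ^ j) : ℝ) = 16 * t ^ 2 * ((1 / 2) ^ i * (1 / 2) ^ j) := by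
      rw [div_pow, div_pow, one_pow, one_pow]
      field_simp
      ring
    have h3 : ∀ n : ℕ, ((1 / 2 : ℝ) ^ n) ^ (1 / 12 : ℝ) = r ^ n := by
      intro n
      rw [hr, ← Real.rpow_natCast, ← Real.rpow_mul (by norm_num), mul_comm,
        Real.rpow_mul (by norm_num), Real.rpow_natCast]
    have h4 : (t ^ 2) ^ (1 / 12 : ℝ) = t ^ (1 / 6 : ℝ) := by
      rw [← Real.rpow_natCast, ← Real.rpow_mul ht0.le]
      norm_num
    rw [h2, Real.mul_rpow (by positivity) (by positivity), Real.mul_rpow (by positivity)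
      (by positivity), Real.mul_rpow (by positivity) (by positivity), h3, h3, h4]
    ring
  have htot : ∑ a ∈ T, |(nm a : ℝ)| ^ (-(11 / 12) : ℝ) ≤
      20 * 16 ^ (1 / 12 : ℝ) * t ^ (1 / 6 : ℝ) * (∑' p : ℕ × ℕ, r ^ p.1 * r ^ p.2 + 1) := by
    classical
    rw [← Finset.sum_fiberwise_of_maps_to (s := T)
      (t := T.image fun a => (J (e1 a), J (e2 a))) (g := fun a => (J (e1 a), J (e2 a)))
      (fun a ha => Finset.mem_image_of_mem _ ha)]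
    calc _ ≤ ∑ p ∈ T.image fun a => (J (e1 a), J (e2 a)),
          20 * 16 ^ (1 / 12 : ℝ) * t ^ (1 / 6 : ℝ) * (r ^ p.1 * r ^ p.2) :=
          Finset.sum_le_sum fun p _ => hfib p
      _ = 20 * 16 ^ (1 / 12 : ℝ) * t ^ (1 / 6 : ℝ) *
          ∑ p ∈ T.image fun a => (J (e1 a), J (e2 a)), r ^ p.1 * r ^ p.2 := by
          rw [Finset.mul_sum]
      _ ≤ _ := by
          refine mul_le_mul_of_nonneg_left ?_ (by positivity)
          have := hsum.sum_le_tsum (T.image fun a => (J (e1 a), J (e2 a)))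
            (fun p _ => mul_nonneg (pow_nonneg hr0 _) (pow_nonneg hr0 _))
          linarith
  have hlast : ∑ a ∈ T, |(nm a : ℝ)| ^ (-(2 / 3) : ℝ) ≤
      η ^ (1 / 4 : ℝ) * t ^ (1 / 2 : ℝ) * ∑ a ∈ T, |(nm a : ℝ)| ^ (-(11 / 12) : ℝ) := by
    rw [Finset.mul_sum]
    refine Finset.sum_le_sum fun a ha => ?_
    obtain ⟨g0, -, -, g3⟩ := hT a ha
    refine pow_aux ?_ hη ht0 g3
    rw [abs_nm]
    exact one_le_abs_mul g0
  refine hlast.trans ((mul_le_mul_of_nonneg_left htot (by positivity)).trans (le_of_eq ?_))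
  have h9 : t ^ (2 / 3 : ℝ) = t ^ (1 / 2 : ℝ) * t ^ (1 / 6 : ℝ) := by
    rw [← Real.rpow_add ht0]
    norm_num
  rw [h9]
  ring

end Pool.Agent.Leo4.H32
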